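import Mathlib

/-!
Definitions for the minimum degree linear removal threshold.
-/

namespace Pool.H46.Removal

/-- A labelled copy of `H` in `G`: an injective map sending edges to edges. -/
def IsCopy {W V : Type} (H : SimpleGraph W) (G : SimpleGraph V) (f : W → V) : Prop :=
  Function.Injective f ∧ ∀ a b, H.Adj a b → G.Adj (f a) (f b)

/-- The images of `H` under `f` and under `g` have no edge in common. -/
def EdgeDisjoint {W V : Type} (H : SimpleGraph W) (f g : W → V) : Prop :=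
  ∀ a b c d, H.Adj a b → H.Adj c d → s(f a, f b) ≠ s(g c, g d)

/-- Every graph `G` with `n` vertices and minimum degree at least `γ n` that has `ε n ^ 2` pairwise
edge-disjoint copies of `H` has at least `δ n ^ v(H)` copies of `H`. -/
def HasRemoval {W : Type} [Fintype W] (H : SimpleGraph W) (ε γ δ : ℝ) : Prop :=
  ∀ (V : Type) [Fintype V] (G : SimpleGraph V),
    (∀ v, γ * Fintype.card V ≤ ((G.neighborSet v).ncard : ℝ)) →
    (∃ S : Finset (W → V), (∀ f ∈ S, IsCopy H G f) ∧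
      (∀ f ∈ S, ∀ g ∈ S, f ≠ g → EdgeDisjoint H f g) ∧
      ε * (Fintype.card V : ℝ) ^ 2 ≤ (S.card : ℝ)) →
    δ * (Fintype.card V : ℝ) ^ Fintype.card W ≤ ({f : W → V | IsCopy H G f}.ncard : ℝ)

/-- The largest `δ` in `[0, 1]` with `HasRemoval H ε γ δ`. -/
noncomputable def removalDelta {W : Type} [Fintype W] (H : SimpleGraph W) (ε γ : ℝ) : ℝ :=
  sSup {δ : ℝ | 0 ≤ δ ∧ δ ≤ 1 ∧ HasRemoval H ε γ δ}

/-- The linear removal threshold of `H`. -/
noncomputable def linThreshold {W : Type} [Fintype W] (H : SimpleGraph W) : ℝ :=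
  sInf {γ : ℝ | 0 ≤ γ ∧ γ ≤ 1 ∧
    ∃ μ : ℝ, 0 < μ ∧ ∀ ε : ℝ, 0 < ε → ε ≤ 1 → μ * ε ≤ removalDelta H ε γ}

end Pool.H46.Removal
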