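import Mathlib

/-!
The graphs used for the counterexample, as bit tables, and the finite checks.
-/

namespace Pool.H46.Removal

/-- Adjacency of the 13-vertex graph: the join of one vertex (0) with a 12-vertex triangle-free
graph that consists of the Grötzsch graph and one more vertex (1). -/
def qadj (a b : ℕ) : Bool :=
  Nat.testBit 307059691087688348256562038242819709091956932526078 (13 * a + b)

/-- Adjacency of the 29-vertex graph `H`. -/
def hadj (a b : ℕ) : Bool :=
  Nat.testBit 4596544123510911867279739634966507441641940732344201860889466961210402408857893759002109677572559865012904803377080566656647707607040183432615574181262241060071763956631756564527807393762411149238730503454097413485149931670655441885343275202393444169158 (29 * a + b)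

/-- Colours of the vertices of `H`. -/
def hcol (a : ℕ) : ℕ :=
  [1, 2, 0, 1, 0, 1, 0, 0, 2, 1, 0, 1, 0, 2, 1, 0, 2, 0, 0, 2, 1, 0, 1, 0, 2, 1, 0, 2, 0].getD a 0

/-- The homomorphism to the 13-vertex graph. -/
def hphi (a : ℕ) : ℕ :=
  [0, 0, 2, 3, 7, 11, 4, 10, 12, 11, 4, 6, 5, 2, 3, 7, 1, 8, 10, 12, 11, 4, 6, 5, 2, 3, 7, 1,
    8].getD a 0

/-- The classes of the 58 units. -/
def ucl (u : ℕ) : ℕ :=
  [0, 0, 0, 0, 0, 0, 0, 0, 0, 0, 0, 0, 0, 0, 0, 0, 0, 0, 0, 0, 0, 0, 0, 2, 2, 3, 3, 3, 3, 3, 4, 4,
    4, 4, 5, 5, 5, 5, 6, 6, 6, 6, 7, 7, 7, 8, 8, 8, 9, 9, 10, 10, 11, 11, 11, 12, 12, 12].getD u 0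

/-- A unit of the given class. -/
def uof (c : ℕ) : ℕ := [0, 0, 23, 25, 30, 34, 38, 42, 45, 48, 50, 52, 55].getD c 0

/-- Search for homomorphisms: `noExt bs l` is true if `l` has no extension. -/
def noExt : List (List ℕ) → List ℕ → Bool
  | [], _ => false
  | b :: bs, l => (List.range' 2 11).all
      (fun c => (b.any (fun j => !(qadj (l.getD j 0) c))) || noExt bs (l ++ [c]))

/-- Earlier neighbours. -/
def backs : List (List ℕ) :=
  [[], [0], [1], [2], [0, 3], [1, 4], [3, 5], [0, 6], [2, 7], [4, 8], [1, 7, 9]]

lemma noExt_backs : noExt backs [] = true := by decide +kernel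

lemma noExt_sound (F : ℕ → ℕ) : ∀ (bs : List (List ℕ)) (l : List ℕ), noExt bs l = true →
    (∀ j, j < l.length → l.getD j 0 = F j) →
    (∀ i, i < bs.length → 2 ≤ F (l.length + i) ∧ F (l.length + i) < 13) →
    (∀ i, i < bs.length → ∀ j ∈ bs.getD i [], j < l.length + i ∧
      qadj (F j) (F (l.length + i)) = true) → False := by
  intro bs
  induction bs with
  | nil => intro l h; simp [noExt] at h
  | cons b bs ih =>
    intro l h hl hr hb
    rw [noExt, List.all_eq_true] at h
    have h0 := hr 0 (by simp)
    rw [Nat.add_zero] at h0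
    have h1 := h (F l.length) (by rw [List.mem_range'_1]; omega)
    rw [Bool.or_eq_true, List.any_eq_true] at h1
    rcases h1 with ⟨j, hj, hj2⟩ | h1
    · have h2 := hb 0 (by simp) j (by simpa using hj)
      rw [Nat.add_zero] at h2
      rw [hl j h2.1, h2.2] at hj2
      simp at hj2
    · refine ih (l ++ [F l.length]) h1 ?_ ?_ ?_
      · intro j hj
        rw [List.length_append, List.length_singleton] at hj
        by_cases hjl : j < l.length
        · rw [List.getD_append _ _ _ _ hjl]
          exact hl j hjl
        · have : j = l.length := by omega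
          subst this
          rw [List.getD_append_right _ _ _ _ (le_refl _)]
          simp
      · intro i hi
        have := hr (i + 1) (by simpa using hi)
        rw [List.length_append, List.length_singleton]
        rwa [show l.length + 1 + i = l.length + (i + 1) by ring]
      · intro i hi j hj
        have := hb (i + 1) (by simpa using hi) j (by simpa using hj)
        rw [List.length_append, List.length_singleton]
        rwa [show l.length + 1 + i = l.length + (i + 1) by ring]

lemma qadj_symm : ∀ a b : Fin 13, qadj a b = true → qadj b a = true := by decide +kernel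

lemma qadj_irrefl : ∀ a : Fin 13, qadj a a = false := by decide +kernel

lemma qadj_tri : ∀ a b c : Fin 13, qadj a b = true → qadj b c = true → qadj a c = true →
    a = 0 ∨ b = 0 ∨ c = 0 := by decide +kernel

lemma hadj_symm : ∀ a b : Fin 29, hadj a b = true → hadj b a = true := by decide +kernel

lemma hadj_irrefl : ∀ a : Fin 29, hadj a a = false := by decide +kernel

lemma hcol_proper : ∀ a b : Fin 29, hadj a b = true →
    hcol a ≠ hcol b ∨ (a = 2 ∧ b = 6) ∨ (a = 6 ∧ b = 2) := by decide +kernel

lemma hcol_lt : ∀ a : Fin 29, hcol a < 3 := by decide +kernel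

lemma hphi_lt : ∀ a : Fin 29, hphi a < 13 := by decide +kernel

lemma ucl_lt : ∀ u : Fin 58, ucl u < 13 := by decide +kernel

lemma uof_lt : ∀ c : Fin 13, uof c < 58 := by decide +kernel

lemma ucl_uof : ∀ c : Fin 13, c ≠ 1 → ucl (uof c) = c := by decide +kernel

lemma hphi_hom : ∀ a b : Fin 29, hadj a b = true → ¬ ((a = 0 ∧ b = 1) ∨ (a = 1 ∧ b = 0)) →
    qadj (hphi a) (hphi b) = true := by decide +kernel

lemma hphi_y : ∀ a : Fin 29, hphi a = 1 ↔ (a = 16 ∨ a = 27) := by decide +kernel

lemma unit_degree : ∀ c : Fin 13,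
    35 ≤ (Finset.univ.filter (fun u : Fin 58 => qadj c (ucl u) = true)).card := by decide +kernel

lemma backs_hadj1 : ∀ i : Fin 11, ∀ j ∈ backs.getD i [], j < (i : ℕ) ∧
    hadj (7 + j) (7 + i) = true := by decide +kernel

lemma backs_hadj2 : ∀ i : Fin 11, ∀ j ∈ backs.getD i [], j < (i : ℕ) ∧
    hadj (18 + j) (18 + i) = true := by decide +kernel

lemma hub_hadj : ∀ i : Fin 11, (hadj 0 (7 + i) = true ∨ hadj 1 (7 + i) = true) ∧
    (hadj 0 (18 + i) = true ∨ hadj 1 (18 + i) = true) := by decide +kernel

end Pool.H46.Removal
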