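import Pool.Agent.Helper46.Removal.Defs
import Pool.Agent.Helper46.Removal.Tables

/-!
The lower bound: the 29-vertex graph without the edge `{0, 1}`.
-/

namespace Pool.H46.Removal

open Finset

/-- The 29-vertex graph. -/
def HH : SimpleGraph (Fin 29) where
  Adj a b := hadj a b = true
  symm := ⟨fun a b h => hadj_symm a b h⟩
  loopless := ⟨fun a h => by rw [hadj_irrefl] at h; exact absurd h (by decide)⟩

/-- Vertices of the blow-up. -/
abbrev VN (N : ℕ) : Type := Fin 2 ⊕ (Fin 58 × (Fin 29 × Fin N))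

/-- Class of a vertex of the blow-up. -/
def cls {N : ℕ} : VN N → Fin 13
  | .inl _ => 1
  | .inr x => ⟨ucl x.1, ucl_lt x.1⟩

/-- The blow-up. -/
def BG (N : ℕ) : SimpleGraph (VN N) where
  Adj a b := qadj (cls a) (cls b) = true
  symm := ⟨fun a b h => qadj_symm (cls a) (cls b) h⟩
  loopless := ⟨fun a h => by rw [qadj_irrefl] at h; exact absurd h (by decide)⟩

lemma del_adj {a b : Fin 29} : (HH.deleteEdges {s(0, 1)}).Adj a b ↔
    hadj a b = true ∧ ¬ ((a = 0 ∧ b = 1) ∨ (a = 1 ∧ b = 0)) := by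
  rw [SimpleGraph.deleteEdges_adj]
  show (hadj a b = true ∧ _) ↔ _
  rw [Set.mem_singleton_iff, Sym2.eq_iff]

/-- If a homomorphism avoids vertex 1 on the first or on the second part, contradiction. -/
lemma hom_uses (g : Fin 29 → Fin 13)
    (hg : ∀ a b : Fin 29, hadj a b = true → ¬ ((a = 0 ∧ b = 1) ∨ (a = 1 ∧ b = 0)) →
      qadj (g a) (g b) = true) :
    (∃ i : Fin 11, g ⟨7 + i, by omega⟩ = 1) ∧ (∃ i : Fin 11, g ⟨18 + i, by omega⟩ = 1) := by
  have hex : ∀ a b : Fin 29, qadj (g a) (g b) = true → ¬ (g a = 0 ∧ g b = 0) := by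
    rintro a b h ⟨h1, h2⟩
    rw [h1, h2] at h
    exact absurd h (by decide)
  -- the hub 1
  have a12 := hg 1 2 (by decide +kernel) (by decide)
  have a13 := hg 1 3 (by decide +kernel) (by decide)
  have a14 := hg 1 4 (by decide +kernel) (by decide)
  have a15 := hg 1 5 (by decide +kernel) (by decide)
  have a16 := hg 1 6 (by decide +kernel) (by decide)
  have a23 := hg 2 3 (by decide +kernel) (by decide)
  have a34 := hg 3 4 (by decide +kernel) (by decide)
  have a45 := hg 4 5 (by decide +kernel) (by decide)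
  have a56 := hg 5 6 (by decide +kernel) (by decide)
  have a26 := hg 2 6 (by decide +kernel) (by decide)
  have a02 := hg 0 2 (by decide +kernel) (by decide)
  have a06 := hg 0 6 (by decide +kernel) (by decide)
  have hub1 : g 1 = 0 := by
    by_contra hne
    have t1 := (qadj_tri _ _ _ a12 a23 a13).resolve_left hne
    have t2 := (qadj_tri _ _ _ a13 a34 a14).resolve_left hne
    have t3 := (qadj_tri _ _ _ a14 a45 a15).resolve_left hne
    have t4 := (qadj_tri _ _ _ a15 a56 a16).resolve_left hne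
    have t5 := (qadj_tri _ _ _ a12 a26 a16).resolve_left hne
    have e1 := hex _ _ a23
    have e2 := hex _ _ a34
    have e3 := hex _ _ a45
    have e4 := hex _ _ a56
    have e5 := hex _ _ a26
    by_cases h2 : g 2 = 0
    · have h3 : g 3 ≠ 0 := fun h => e1 ⟨h2, h⟩
      have h4 : g 4 = 0 := t2.resolve_left h3
      have h5 : g 5 ≠ 0 := fun h => e3 ⟨h4, h⟩
      have h6 : g 6 = 0 := t4.resolve_left h5
      exact e5 ⟨h2, h6⟩
    · have h3 : g 3 = 0 := t1.resolve_left h2
      have h4 : g 4 ≠ 0 := fun h => e2 ⟨h3, h⟩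
      have h5 : g 5 = 0 := t3.resolve_left h4
      have h6 : g 6 ≠ 0 := fun h => e4 ⟨h5, h⟩
      exact h6 (t5.resolve_left h2)
  have hub0 : g 0 = 0 := by
    have e1 := hex _ _ a12
    have e2 := hex _ _ a16
    rcases qadj_tri _ _ _ a02 a26 a06 with h | h | h
    · exact h
    · exact absurd ⟨hub1, h⟩ e1
    · exact absurd ⟨hub1, h⟩ e2
  have key : ∀ c : ℕ, c + 11 ≤ 29 → (∀ i : Fin 11, hadj 0 (c + i) = true ∨ hadj 1 (c + i) = true) →
      2 ≤ c → (∀ i : Fin 11, ∀ j ∈ backs.getD i [], j < (i : ℕ) ∧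
      hadj (c + j) (c + i) = true) → ∀ hlt : (∀ i : Fin 11, c + i < 29),
      ∃ i : Fin 11, g ⟨c + i, hlt i⟩ = 1 := by
    intro c hc29 hcadj hc2 hback hlt
    by_contra hno
    push Not at hno
    have hbl : backs.length = 11 := rfl
    refine noExt_sound (fun i => if h : i < 11 then (g ⟨c + i, hlt ⟨i, h⟩⟩ : ℕ) else 0) backs []
      noExt_backs (by simp) ?_ ?_
    · intro i hi
      rw [hbl] at hi
      simp only [List.length_nil, Nat.zero_add, hi, dif_pos]
      have h1 : g ⟨c + i, hlt ⟨i, hi⟩⟩ ≠ 1 := hno ⟨i, hi⟩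
      have h0 : g ⟨c + i, hlt ⟨i, hi⟩⟩ ≠ 0 := by
        intro h0
        have hcx : ∀ (x : Fin 29), ¬ ((x = 0 ∧
            (⟨c + i, hlt ⟨i, hi⟩⟩ : Fin 29) = 1) ∨ (x = 1 ∧
            (⟨c + i, hlt ⟨i, hi⟩⟩ : Fin 29) = 0)) := by
          intro x hh
          rcases hh with ⟨_, h⟩ | ⟨_, h⟩
          · have := congrArg Fin.val h
            simp at this
            omega
          · have := congrArg Fin.val h
            simp at this
            omega
        rcases hcadj ⟨i, hi⟩ with h | h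
        · have := hg 0 ⟨c + i, hlt ⟨i, hi⟩⟩ h (hcx 0)
          exact hex _ _ this ⟨hub0, h0⟩
        · have := hg 1 ⟨c + i, hlt ⟨i, hi⟩⟩ h (hcx 1)
          exact hex _ _ this ⟨hub1, h0⟩
      have h0' : (g ⟨c + i, hlt ⟨i, hi⟩⟩ : ℕ) ≠ 0 := fun h => h0 (Fin.ext h)
      have h1' : (g ⟨c + i, hlt ⟨i, hi⟩⟩ : ℕ) ≠ 1 := fun h => h1 (Fin.ext h)
      have := (g ⟨c + i, hlt ⟨i, hi⟩⟩).isLt
      exact ⟨by omega, this⟩
    · intro i hi j hj
      rw [hbl] at hi
      have h := hback ⟨i, hi⟩ j (by simpa using hj)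
      have hji : j < i := h.1
      have hj11 : j < 11 := by omega
      simp only [List.length_nil, Nat.zero_add, hi, hj11, dif_pos]
      refine ⟨hji, ?_⟩
      refine hg ⟨c + j, hlt ⟨j, hj11⟩⟩ ⟨c + i, hlt ⟨i, hi⟩⟩ h.2 ?_
      rintro (⟨h, _⟩ | ⟨h, _⟩)
      · have := congrArg Fin.val h
        simp at this
        omega
      · have := congrArg Fin.val h
        simp at this
        omega
  exact ⟨key 7 (by omega) (fun i => (hub_hadj i).1) (by omega) backs_hadj1 _,
    key 18 (by omega) (fun i => (hub_hadj i).2) (by omega) backs_hadj2 _⟩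

open scoped Classical in
lemma two_fixed {W V : Type} [Fintype W] [Fintype V] (w w' : W) (hw : w ≠ w') (u v : V) :
    (univ.filter (fun f : W → V => f w = u ∧ f w' = v)).card ≤
      Fintype.card V ^ (Fintype.card W - 2) := by
  have hcard : Fintype.card {x : W // x ≠ w ∧ x ≠ w'} = Fintype.card W - 2 := by
    rw [Fintype.card_subtype]
    have e : (univ.filter (fun x : W => x ≠ w ∧ x ≠ w')) = univ \ {w, w'} := by
      ext x; simp
    rw [e, Finset.card_sdiff_of_subset (Finset.subset_univ _), Finset.card_univ]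
    rw [Finset.card_insert_of_notMem (by simp [hw]), Finset.card_singleton]
  rw [← hcard, ← Fintype.card_fun, ← Finset.card_univ]
  refine Finset.card_le_card_of_injOn (fun f z => f z.1) (fun _ _ => by simp) ?_
  intro f hf g hg hfg
  rw [Finset.mem_coe, Finset.mem_filter] at hf hg
  have hx : ∀ x, x ≠ w → x ≠ w' → f x = g x := fun x a b => congrFun hfg ⟨x, a, b⟩
  funext x
  by_cases a : x = w
  · rw [a, hf.2.1, hg.2.1]
  by_cases b : x = w'
  · rw [b, hf.2.2, hg.2.2]
  exact hx x a b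

/-- A family of maps that all take two prescribed values. -/
lemma few_general {W V I : Type} [Fintype W] [Fintype V] [Fintype I] (P : (W → V) → Prop)
    (w w' : I → W) (u v : I → V) (hne : ∀ i, w i ≠ w' i)
    (h : ∀ f, P f → ∃ i, f (w i) = u i ∧ f (w' i) = v i) :
    {f : W → V | P f}.ncard ≤ Fintype.card I * Fintype.card V ^ (Fintype.card W - 2) := by
  classical
  have hsub : {f : W → V | P f} ⊆ ((univ : Finset I).biUnion (fun i =>
      univ.filter (fun f : W → V => f (w i) = u i ∧ f (w' i) = v i)) : Finset (W → V)) := by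
    intro f hf
    obtain ⟨i, hi⟩ := h f hf
    rw [Finset.mem_coe, Finset.mem_biUnion]
    refine ⟨i, Finset.mem_univ _, ?_⟩
    rw [Finset.mem_filter]
    exact ⟨Finset.mem_univ _, hi⟩
  refine (Set.ncard_le_ncard hsub (Set.toFinite _)).trans ?_
  rw [Set.ncard_coe_finset]
  refine Finset.card_biUnion_le.trans ?_
  calc _ ≤ ∑ _i : I, Fintype.card V ^ (Fintype.card W - 2) := by
        refine Finset.sum_le_sum fun i _ => ?_
        convert two_fixed (w i) (w' i) (hne i) (u i) (v i)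
    _ = _ := by
        rw [Finset.sum_const, smul_eq_mul, Finset.card_univ]

lemma cls_one {N : ℕ} (x : VN N) (hx : cls x = 1) : ∃ y, x = Sum.inl y := by
  rcases x with y | y
  · exact ⟨y, rfl⟩
  · exfalso
    have h2 : ∀ u : Fin 58, ucl u ≠ 1 := by decide +kernel
    have h3 := congrArg Fin.val hx
    exact h2 y.1 h3

/-- There are few copies in the blow-up. -/
lemma few_copies (N : ℕ) :
    {f : Fin 29 → VN N | IsCopy (HH.deleteEdges {s(0, 1)}) (BG N) f}.ncard ≤
      484 * Fintype.card (VN N) ^ 27 := by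
  have key := few_general (I := (Fin 11 × Fin 11) × (Fin 2 × Fin 2))
    (fun f : Fin 29 → VN N => IsCopy (HH.deleteEdges {s(0, 1)}) (BG N) f)
    (fun z => ⟨7 + z.1.1, by omega⟩) (fun z => ⟨18 + z.1.2, by omega⟩)
    (fun z => Sum.inl z.2.1) (fun z => Sum.inl z.2.2)
    (fun z h => by
      have h1 := congrArg Fin.val h
      have h2 := z.1.1.isLt
      simp only at h1
      omega)
    (fun f hf => by
      obtain ⟨⟨i, hi⟩, ⟨j, hj⟩⟩ := hom_uses (fun w => cls (f w)) (fun a b h1 h2 =>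
        hf.2 a b (del_adj.mpr ⟨h1, h2⟩))
      obtain ⟨y, hy⟩ := cls_one _ hi
      obtain ⟨y', hy'⟩ := cls_one _ hj
      exact ⟨((i, j), (y, y')), hy, hy'⟩)
  have e1 : Fintype.card ((Fin 11 × Fin 11) × (Fin 2 × Fin 2)) = 484 := by
    simp [Fintype.card_prod, Fintype.card_fin]
  rw [e1, Fintype.card_fin] at key
  exact key

/-- The `j`-th copy. -/
def cp {N : ℕ} (j : Fin N) (w : Fin 29) : VN N :=
  if w = 16 then Sum.inl 0 else if w = 27 then Sum.inl 1 else
    Sum.inr (⟨uof (hphi w), uof_lt ⟨hphi w, hphi_lt w⟩⟩, (w, j))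

lemma cp_of_ne {N : ℕ} (j : Fin N) (w : Fin 29) (h1 : w ≠ 16) (h2 : w ≠ 27) :
    cp j w = Sum.inr (⟨uof (hphi w), uof_lt ⟨hphi w, hphi_lt w⟩⟩, (w, j)) := by
  simp [cp, h1, h2]

lemma cls_cp {N : ℕ} (j : Fin N) (w : Fin 29) : cls (cp j w) = ⟨hphi w, hphi_lt w⟩ := by
  by_cases h1 : w = 16
  · subst h1
    simp only [cp, if_true]
    rfl
  by_cases h2 : w = 27
  · subst h2
    simp only [cp, if_true]
    rfl
  rw [cp_of_ne j w h1 h2]
  apply Fin.ext
  have := ucl_uof ⟨hphi w, hphi_lt w⟩ (by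
    intro h
    have h3 := (hphi_y w).mp (congrArg Fin.val h)
    tauto)
  exact this

lemma cp_inj {N : ℕ} (j : Fin N) : Function.Injective (cp j) := by
  intro w w' h
  by_cases h1 : w = 16
  · by_cases h1' : w' = 16
    · rw [h1, h1']
    · by_cases h2' : w' = 27
      · subst h1 h2'
        simp [cp] at h
      · rw [cp_of_ne j w' h1' h2'] at h
        subst h1
        simp [cp] at h
  · by_cases h2 : w = 27
    · by_cases h1' : w' = 16
      · subst h2 h1'
        simp [cp] at h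
      · by_cases h2' : w' = 27
        · rw [h2, h2']
        · rw [cp_of_ne j w' h1' h2'] at h
          subst h2
          simp [cp] at h
    · rw [cp_of_ne j w h1 h2] at h
      by_cases h1' : w' = 16
      · subst h1'
        simp [cp] at h
      · by_cases h2' : w' = 27
        · subst h2'
          simp [cp] at h
        · rw [cp_of_ne j w' h1' h2'] at h
          have h5 := (Prod.mk.inj (Sum.inr.inj h)).2
          exact (Prod.mk.inj h5).1

lemma cp_isCopy {N : ℕ} (j : Fin N) : IsCopy (HH.deleteEdges {s(0, 1)}) (BG N) (cp j) := by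
  refine ⟨cp_inj j, fun a b hab => ?_⟩
  rw [del_adj] at hab
  show qadj (cls (cp j a)) (cls (cp j b)) = true
  rw [cls_cp, cls_cp]
  exact hphi_hom a b hab.1 hab.2

lemma cp_snd {N : ℕ} (j j' : Fin N) (w w' : Fin 29) (h1 : w ≠ 16) (h2 : w ≠ 27)
    (h : cp j w = cp j' w') : j = j' := by
  rw [cp_of_ne j w h1 h2] at h
  by_cases h1' : w' = 16
  · subst h1'
    simp [cp] at h
  by_cases h2' : w' = 27
  · subst h2'
    simp [cp] at h
  rw [cp_of_ne j' w' h1' h2'] at h
  have h5 := (Prod.mk.inj (Sum.inr.inj h)).2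
  exact (Prod.mk.inj h5).2

lemma y_nonadj : ∀ a b : Fin 29, hadj a b = true → (a ≠ 16 ∧ a ≠ 27) ∨ (b ≠ 16 ∧ b ≠ 27) := by
  decide +kernel

lemma cp_disjoint {N : ℕ} (j j' : Fin N) (hj : j ≠ j') :
    EdgeDisjoint (HH.deleteEdges {s(0, 1)}) (cp j) (cp j') := by
  intro a b c d hab hcd h
  rw [del_adj] at hab
  rw [Sym2.eq_iff] at h
  rcases y_nonadj a b hab.1 with ⟨h1, h2⟩ | ⟨h1, h2⟩
  · rcases h with ⟨h3, _⟩ | ⟨h3, _⟩
    · exact hj (cp_snd j j' a c h1 h2 h3)
    · exact hj (cp_snd j j' a d h1 h2 h3)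
  · rcases h with ⟨_, h3⟩ | ⟨_, h3⟩
    · exact hj (cp_snd j j' b d h1 h2 h3)
    · exact hj (cp_snd j j' b c h1 h2 h3)

lemma BG_degree (N : ℕ) (v : VN N) : 35 * (29 * N) ≤ ((BG N).neighborSet v).ncard := by
  classical
  set T : Finset (VN N) := ((univ.filter (fun u : Fin 58 => qadj (cls v) (ucl u) = true)) ×ˢ
    (univ : Finset (Fin 29 × Fin N))).map ⟨Sum.inr, Sum.inr_injective⟩ with hT
  have h1 : (T : Set (VN N)) ⊆ (BG N).neighborSet v := by
    intro x hx
    rw [Finset.mem_coe, hT, Finset.mem_map] at hx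
    obtain ⟨y, hy, rfl⟩ := hx
    rw [Finset.mem_product, Finset.mem_filter] at hy
    exact hy.1.2
  have h2 := Set.ncard_le_ncard h1 (Set.toFinite _)
  rw [Set.ncard_coe_finset] at h2
  refine le_trans ?_ h2
  rw [hT, Finset.card_map, Finset.card_product, Finset.card_univ, Fintype.card_prod,
    Fintype.card_fin, Fintype.card_fin]
  exact Nat.mul_le_mul_right _ (unit_degree (cls v))

theorem not_linear (γ : ℝ) (hγ : γ < 35 / 58) (μ : ℝ) (hμ : 0 < μ)
    (h : ∀ ε : ℝ, 0 < ε → ε ≤ 1 → μ * ε ≤ removalDelta (HH.deleteEdges {s(0, 1)}) ε γ) :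
    False := by
  classical
  obtain ⟨N1, hN1⟩ := exists_nat_gt (968 / μ)
  obtain ⟨N2, hN2⟩ := exists_nat_gt (2 * γ / (1015 - 1682 * γ))
  set N : ℕ := N1 + N2 + 1 with hN
  have hNpos : (0 : ℝ) < N := by rw [hN]; push_cast; positivity
  have hNa : 968 / μ < N := by
    rw [hN]; push_cast
    have : (0 : ℝ) ≤ N2 := by positivity
    linarith
  have hNb : 2 * γ / (1015 - 1682 * γ) < N := by
    rw [hN]; push_cast
    have : (0 : ℝ) ≤ N1 := by positivity
    linarith
  have hd : 0 < 1015 - 1682 * γ := by linarith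
  rw [div_lt_iff₀ hd] at hNb
  rw [div_lt_iff₀ hμ] at hNa
  have hcardV : (Fintype.card (VN N) : ℝ) = 2 + 1682 * N := by
    rw [Fintype.card_sum, Fintype.card_prod, Fintype.card_prod, Fintype.card_fin, Fintype.card_fin,
      Fintype.card_fin, Fintype.card_fin]
    push_cast
    ring
  have hVpos : (0 : ℝ) < Fintype.card (VN N) := by rw [hcardV]; positivity
  set n : ℝ := (Fintype.card (VN N) : ℝ) with hn
  have hε : 0 < (N : ℝ) / n ^ 2 := by positivity
  have hε1 : (N : ℝ) / n ^ 2 ≤ 1 := by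
    rw [div_le_one (by positivity), hcardV]
    nlinarith
  -- a value of the property
  obtain ⟨δ, ⟨hδ0, hδ1, hδ⟩, hlt⟩ : ∃ δ ∈ {δ : ℝ | 0 ≤ δ ∧ δ ≤ 1 ∧
      HasRemoval (HH.deleteEdges {s(0, 1)}) (N / n ^ 2) γ δ}, μ * (N / n ^ 2) / 2 < δ := by
    refine exists_lt_of_lt_csSup ?_ (lt_of_lt_of_le ?_ (h _ hε hε1))
    · refine ⟨0, le_refl _, zero_le_one, ?_⟩
      intro V _ G _ _
      rw [zero_mul]
      exact Nat.cast_nonneg _
    · have : 0 < μ * ((N : ℝ) / n ^ 2) := by positivity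
      linarith
  have key := hδ (VN N) (BG N) (by
    intro v
    have h1 := BG_degree N v
    have h2 : ((35 * (29 * N) : ℕ) : ℝ) ≤ (((BG N).neighborSet v).ncard : ℝ) := by
      exact_mod_cast h1
    refine le_trans ?_ h2
    rw [← hn, hcardV]
    push_cast
    nlinarith) (by
    refine ⟨univ.image (fun j : Fin N => cp j), ?_, ?_, ?_⟩
    · intro f hf
      rw [Finset.mem_image] at hf
      obtain ⟨j, _, rfl⟩ := hf
      exact cp_isCopy j
    · intro f hf g hg hne
      rw [Finset.mem_image] at hf hg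
      obtain ⟨j, _, rfl⟩ := hf
      obtain ⟨j', _, rfl⟩ := hg
      exact cp_disjoint j j' (fun h => hne (by rw [h]))
    · rw [Finset.card_image_of_injective _ (fun j j' hjj =>
        cp_snd j j' 0 0 (by decide) (by decide) (congrFun hjj 0)), Finset.card_univ,
        Fintype.card_fin]
      rw [div_mul_cancel₀ _ (by positivity)])
  rw [Fintype.card_fin] at key
  have h3 : ({f : Fin 29 → VN N | IsCopy (HH.deleteEdges {s(0, 1)}) (BG N) f}.ncard : ℝ) ≤
      484 * n ^ 27 := by
    have h4 := few_copies N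
    rw [hn]
    exact_mod_cast h4
  have h6 : μ * (N / n ^ 2) / 2 * n ^ 29 ≤ 484 * n ^ 27 :=
    (mul_le_mul_of_nonneg_right hlt.le (by positivity)).trans (key.trans h3)
  have h7 : μ * (N / n ^ 2) / 2 * n ^ 29 = (μ * N / 2) * n ^ 27 := by
    field_simp
  rw [h7] at h6
  have h8 : (0 : ℝ) < n ^ 27 := by positivity
  have h9 := le_of_mul_le_mul_right h6 h8
  linarith

/-- The lower bound for the threshold. -/
theorem le_linThreshold : 35 / 58 ≤ linThreshold (HH.deleteEdges {s(0, 1)}) := by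
  refine le_csInf ?_ ?_
  · refine ⟨1, zero_le_one, le_refl _, 1, one_pos, ?_⟩
    intro ε hε hε1
    rw [one_mul]
    refine le_csSup ⟨1, fun y hy => hy.2.1⟩ ⟨hε.le, hε1, ?_⟩
    intro V _ G hG _
    rcases isEmpty_or_nonempty V with hV | ⟨⟨v⟩⟩
    · rw [Fintype.card_eq_zero, Fintype.card_fin, Nat.cast_zero, zero_pow (by norm_num), mul_zero]
      exact Nat.cast_nonneg _
    · exfalso
      have h1 := hG v
      rw [one_mul] at h1
      have h2 : (G.neighborSet v).ncard < Fintype.card V := by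
        rw [← Nat.card_eq_fintype_card, ← Set.ncard_univ]
        refine Set.ncard_lt_ncard ?_ (Set.toFinite _)
        rw [Set.ssubset_univ_iff]
        intro h3
        have : v ∈ G.neighborSet v := by rw [h3]; trivial
        exact G.irrefl this
      have h3 : ((G.neighborSet v).ncard : ℝ) < Fintype.card V := by exact_mod_cast h2
      linarith
  · rintro γ ⟨_, _, μ, hμ, h⟩
    by_contra hlt
    rw [not_le] at hlt
    exact not_linear γ hlt μ hμ h

end Pool.H46.Removal
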