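import Pool.Agent.Helper46.Removal.Defs

/-!
Counting lemmas for the upper bound.
-/

namespace Pool.H46.Removal

open Finset

open scoped Classical in
/-- Jensen: tuples in the first coordinate. -/
lemma jensen {X Y I : Type} [Fintype X] [Fintype Y] [Fintype I] [Nonempty I]
    (R : X → Y → Prop) (ρ : ℝ) (hρ : 0 ≤ ρ)
    (h : ρ * ((Fintype.card X : ℝ) * Fintype.card Y) ≤
      ((univ.filter (fun p : X × Y => R p.1 p.2)).card : ℝ)) :
    ρ ^ Fintype.card I * ((Fintype.card X : ℝ) ^ Fintype.card I * Fintype.card Y) ≤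
      ((univ.filter (fun q : (I → X) × Y => ∀ i, R (q.1 i) q.2)).card : ℝ) := by
  obtain ⟨m, hm⟩ : ∃ m, Fintype.card I = m + 1 :=
    ⟨Fintype.card I - 1, by have := Fintype.card_pos (α := I); omega⟩
  have e1 : ((univ.filter (fun p : X × Y => R p.1 p.2)).card : ℝ) =
      ∑ y : Y, ((univ.filter (fun x : X => R x y)).card : ℝ) := by
    rw [Finset.card_filter]
    push_cast
    rw [Fintype.sum_prod_type_right]
    refine Finset.sum_congr rfl fun y _ => ?_
    rw [Finset.card_filter]
    push_cast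
    rfl
  have e2 : ((univ.filter (fun q : (I → X) × Y => ∀ i, R (q.1 i) q.2)).card : ℝ) =
      ∑ y : Y, ((univ.filter (fun x : X => R x y)).card : ℝ) ^ (m + 1) := by
    rw [Finset.card_filter]
    push_cast
    rw [Fintype.sum_prod_type_right]
    refine Finset.sum_congr rfl fun y _ => ?_
    have : (univ.filter (fun x : I → X => ∀ i, R (x i) y)) =
        Fintype.piFinset (fun _ : I => univ.filter (fun x : X => R x y)) := by
      ext x; simp [Fintype.mem_piFinset]
    have h2 : ((univ.filter (fun x : I → X => ∀ i, R (x i) y)).card : ℝ) =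
        ((univ.filter (fun x : X => R x y)).card : ℝ) ^ (m + 1) := by
      rw [this, Fintype.card_piFinset]
      simp [hm]
    rw [← h2, Finset.card_filter]
    push_cast
    rfl
  rw [e2, hm]
  rw [e1] at h
  rcases Nat.eq_zero_or_pos (Fintype.card Y) with hY | hY
  · have : IsEmpty Y := Fintype.card_eq_zero_iff.mp hY
    simp
  have hY' : (0 : ℝ) < Fintype.card Y := by exact_mod_cast hY
  have key := pow_sum_div_card_le_sum_pow (s := (univ : Finset Y))
    (f := fun y => ((univ.filter (fun x : X => R x y)).card : ℝ)) (fun _ _ => by positivity) m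
  rw [Finset.card_univ] at key
  refine le_trans ?_ key
  rw [le_div_iff₀ (by positivity)]
  calc ρ ^ (m + 1) * ((Fintype.card X : ℝ) ^ (m + 1) * Fintype.card Y) * (Fintype.card Y : ℝ) ^ m
      = (ρ * ((Fintype.card X : ℝ) * Fintype.card Y)) ^ (m + 1) := by ring
    _ ≤ _ := by
      apply pow_le_pow_left₀ (by positivity) h

/-- Jensen, with `Nat.card`. -/
lemma jensen' {X Y I : Type} [Finite X] [Finite Y] [Finite I] [Nonempty I]
    (R : X → Y → Prop) (ρ : ℝ) (hρ : 0 ≤ ρ)
    (h : ρ * ((Nat.card X : ℝ) * Nat.card Y) ≤ (Nat.card {p : X × Y // R p.1 p.2} : ℝ)) :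
    ρ ^ Nat.card I * ((Nat.card X : ℝ) ^ Nat.card I * Nat.card Y) ≤
      (Nat.card {q : (I → X) × Y // ∀ i, R (q.1 i) q.2} : ℝ) := by
  classical
  have := Fintype.ofFinite X
  have := Fintype.ofFinite Y
  have := Fintype.ofFinite I
  have e0 : (Nat.card {p : X × Y // R p.1 p.2} : ℝ) =
      ((univ.filter (fun p : X × Y => R p.1 p.2)).card : ℝ) := by
    rw [Nat.card_eq_fintype_card, Fintype.card_subtype]
  rw [e0] at h
  have key := jensen (I := I) R ρ hρ (by
    rw [Nat.card_eq_fintype_card, Nat.card_eq_fintype_card] at h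
    exact h)
  rw [Nat.card_eq_fintype_card, Nat.card_eq_fintype_card, Nat.card_eq_fintype_card,
    Nat.card_eq_fintype_card, Fintype.card_subtype]
  convert key

/-- Jensen three times. -/
lemma triple_jensen {V A B C : Type} [Finite V] [Finite A] [Finite B] [Finite C]
    [Nonempty A] [Nonempty B] [Nonempty C] (T : V → V → V → Prop) (ρ : ℝ) (hρ : 0 ≤ ρ)
    (h : ρ * (Nat.card V : ℝ) ^ 3 ≤ (Nat.card {x : V × (V × V) // T x.1 x.2.1 x.2.2} : ℝ)) :
    ((ρ ^ Nat.card A) ^ Nat.card B) ^ Nat.card C *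
      (Nat.card V : ℝ) ^ (Nat.card C + (Nat.card B + Nat.card A)) ≤
      (Nat.card {x : (C → V) × ((B → V) × (A → V)) //
        ∀ k j i, T (x.2.2 i) (x.2.1 j) (x.1 k)} : ℝ) := by
  have h1 := jensen' (I := A) (fun (a : V) (y : V × V) => T a y.1 y.2) ρ hρ (by
    refine le_trans (le_of_eq ?_) h
    rw [Nat.card_prod]
    push_cast
    ring)
  have h3 := jensen' (I := B) (fun (b : V) (y : (A → V) × V) => ∀ i, T (y.1 i) b y.2) _
    (by positivity : 0 ≤ ρ ^ Nat.card A) (by
    have e : Nat.card {p : V × ((A → V) × V) // ∀ i, T (p.2.1 i) p.1 p.2.2} =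
        Nat.card {q : (A → V) × (V × V) // ∀ i, T (q.1 i) q.2.1 q.2.2} := by
      refine Nat.card_congr (Equiv.subtypeEquiv ⟨fun x => (x.2.1, (x.1, x.2.2)),
        fun y => (y.2.1, (y.1, y.2.2)), fun _ => rfl, fun _ => rfl⟩ ?_)
      intro x
      exact Iff.rfl
    rw [e]
    refine le_trans (le_of_eq ?_) h1
    rw [Nat.card_prod, Nat.card_prod, Nat.card_fun]
    push_cast
    ring)
  have h5 := jensen' (I := C) (fun (c : V) (y : (B → V) × (A → V)) =>
      ∀ j i, T (y.2 i) (y.1 j) c) _ (by positivity : 0 ≤ (ρ ^ Nat.card A) ^ Nat.card B) (by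
    have e : Nat.card {p : V × ((B → V) × (A → V)) // ∀ j i, T (p.2.2 i) (p.2.1 j) p.1} =
        Nat.card {q : (B → V) × ((A → V) × V) // ∀ j i, T (q.2.1 i) (q.1 j) q.2.2} := by
      refine Nat.card_congr (Equiv.subtypeEquiv ⟨fun x => (x.2.1, (x.2.2, x.1)),
        fun y => (y.2.2, (y.1, y.2.1)), fun _ => rfl, fun _ => rfl⟩ ?_)
      intro x
      exact Iff.rfl
    rw [e]
    refine le_trans (le_of_eq ?_) h3
    rw [Nat.card_prod, Nat.card_prod, Nat.card_fun, Nat.card_fun]
    push_cast
    ring)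
  refine le_trans (le_of_eq ?_) h5
  rw [Nat.card_prod, Nat.card_fun, Nat.card_fun]
  push_cast
  rw [pow_add, pow_add]

open scoped Classical in
/-- Among four vertices of large degree, two have many edges in the common neighbourhood. -/
lemma four_pair {V : Type} [Fintype V] (G : SimpleGraph V) (γ c0 : ℝ) (hc : 0 < c0)
    (hγ : γ = 3 / 5 + c0) (hγ1 : γ ≤ 1)
    (hdeg : ∀ v, γ * Fintype.card V ≤ ((univ.filter (fun w => G.Adj v w)).card : ℝ))
    (v : Fin 4 → V) :
    ∃ i j : Fin 4, i ≠ j ∧ c0 ^ 2 / 16 * (Fintype.card V : ℝ) ^ 2 ≤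
      ((univ.filter (fun p : V × V => G.Adj p.1 p.2 ∧ (G.Adj (v i) p.1 ∧ G.Adj (v j) p.1) ∧
        (G.Adj (v i) p.2 ∧ G.Adj (v j) p.2))).card : ℝ) := by
  set n : ℝ := (Fintype.card V : ℝ) with hn
  have hVne : Nonempty V := ⟨v 0⟩
  have hnpos : 0 < n := by
    rw [hn]; exact_mod_cast Fintype.card_pos
  set d : V → ℕ := fun w => (univ.filter (fun i : Fin 4 => G.Adj (v i) w)).card with hd
  have hd4 : ∀ w, d w ≤ 4 := fun w => by
    have := Finset.card_filter_le (univ : Finset (Fin 4)) (fun i : Fin 4 => G.Adj (v i) w)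
    simpa using this
  -- the sum of the d's
  have hsum : 4 * γ * n ≤ ∑ w : V, (d w : ℝ) := by
    have e : ∑ w : V, (d w : ℝ) = ∑ i : Fin 4, ((univ.filter (fun w => G.Adj (v i) w)).card : ℝ) := by
      simp only [hd, Finset.card_filter]
      push_cast
      rw [Finset.sum_comm]
    rw [e]
    calc 4 * γ * n = ∑ _i : Fin 4, γ * n := by simp; ring
      _ ≤ _ := Finset.sum_le_sum fun i _ => hdeg (v i)
  set A : ℝ := ((univ.filter (fun w => d w ≤ 1)).card : ℝ) with hA
  set B : ℝ := ((univ.filter (fun w => d w ≤ 2)).card : ℝ) with hB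
  set X : ℝ := ((univ.filter (fun w => d w = 4)).card : ℝ) with hX
  have hA0 : 0 ≤ A := by positivity
  have hAB : A ≤ B := by
    rw [hA, hB]
    have h : univ.filter (fun w => d w ≤ 1) ⊆ univ.filter (fun w => d w ≤ 2) := by
      intro w hw
      rw [Finset.mem_filter] at hw ⊢
      exact ⟨hw.1, by omega⟩
    exact_mod_cast Finset.card_le_card h
  have hXB : X + B ≤ n := by
    have : (univ.filter (fun w => d w = 4)).card + (univ.filter (fun w => d w ≤ 2)).card ≤
        Fintype.card V := by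
      rw [← Finset.card_union_of_disjoint]
      · exact Finset.card_le_univ _
      · rw [Finset.disjoint_filter]
        intro w _ h1 h2
        omega
    rw [hX, hB, hn]
    exact_mod_cast this
  have hsum2 : ∑ w : V, (d w : ℝ) ≤ 3 * n - A - B + X := by
    have e : 3 * n - A - B + X = ∑ w : V, ((3 : ℝ) - (if d w ≤ 1 then 1 else 0)
        - (if d w ≤ 2 then 1 else 0) + (if d w = 4 then 1 else 0)) := by
      rw [hA, hB, hX, Finset.sum_add_distrib, Finset.sum_sub_distrib, Finset.sum_sub_distrib]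
      simp only [Finset.card_filter]
      push_cast
      simp [hn, mul_comm]
    rw [e]
    refine Finset.sum_le_sum fun w _ => ?_
    have := hd4 w
    interval_cases h : d w <;> norm_num
  have hXlow : 4 * γ * n - 3 * n + A + B ≤ X := by linarith
  -- the pairs with two common indices
  set Mw : V → Finset V := fun w => univ.filter (fun c => G.Adj w c ∧
    2 ≤ (univ.filter (fun i : Fin 4 => G.Adj (v i) w ∧ G.Adj (v i) c)).card) with hMw
  have hMw1 : ∀ w (k : ℕ), 5 - d w ≤ k → 3 ≤ d w →
      γ * n - ((univ.filter (fun c => d c ≤ k)).card : ℝ) ≤ ((Mw w).card : ℝ) := by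
    intro w k hk h3
    have hsub : (univ.filter (fun c => G.Adj w c)) ⊆ Mw w ∪ univ.filter (fun c => d c ≤ k) := by
      intro c hc'
      rw [Finset.mem_filter] at hc'
      rw [Finset.mem_union]
      by_cases hdc : d c ≤ k
      · right; simp [hdc]
      · left
        rw [hMw]
        simp only [Finset.mem_filter, Finset.mem_univ, true_and]
        refine ⟨hc'.2, ?_⟩
        have e : (univ.filter (fun i : Fin 4 => G.Adj (v i) w ∧ G.Adj (v i) c)) =
            (univ.filter (fun i : Fin 4 => G.Adj (v i) w)) ∩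
            (univ.filter (fun i : Fin 4 => G.Adj (v i) c)) := by
          ext i; simp
        rw [e]
        have h1 := Finset.card_union_add_card_inter
          (univ.filter (fun i : Fin 4 => G.Adj (v i) w)) (univ.filter (fun i : Fin 4 => G.Adj (v i) c))
        have h2 : ((univ.filter (fun i : Fin 4 => G.Adj (v i) w)) ∪
          (univ.filter (fun i : Fin 4 => G.Adj (v i) c))).card ≤ 4 := by
          simpa using Finset.card_le_univ ((univ.filter (fun i : Fin 4 => G.Adj (v i) w)) ∪
          (univ.filter (fun i : Fin 4 => G.Adj (v i) c)))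
        have h3' : d w = (univ.filter (fun i : Fin 4 => G.Adj (v i) w)).card := rfl
        have h4' : d c = (univ.filter (fun i : Fin 4 => G.Adj (v i) c)).card := rfl
        omega
    have h1 := Finset.card_le_card hsub
    have h2 := Finset.card_union_le (Mw w) (univ.filter (fun c => d c ≤ k))
    have h3 : ((univ.filter (fun c => G.Adj w c)).card : ℝ) ≤
        ((Mw w).card : ℝ) + ((univ.filter (fun c => d c ≤ k)).card : ℝ) := by
      exact_mod_cast h1.trans h2
    have := hdeg w
    linarith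
  set M : ℝ := ∑ w : V, ((Mw w).card : ℝ) with hM
  have hMlow : c0 ^ 2 * n ^ 2 ≤ M := by
    by_cases hBc : B ≤ (γ - c0) * n
    · have h1 : ∑ w ∈ univ.filter (fun w => ¬ d w ≤ 2), (γ * n - B) ≤ M := by
        rw [hM]
        refine le_trans (Finset.sum_le_sum (g := fun w => ((Mw w).card : ℝ)) ?_)
          (Finset.sum_le_sum_of_subset_of_nonneg (Finset.subset_univ _) fun _ _ _ => by positivity)
        intro w hw
        rw [Finset.mem_filter] at hw
        exact hMw1 w 2 (by omega) (by omega)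
      rw [Finset.sum_const, nsmul_eq_mul] at h1
      have h2 : ((univ.filter (fun w => ¬ d w ≤ 2)).card : ℝ) = n - B := by
        have := Finset.card_filter_add_card_filter_not (s := (univ : Finset V)) (fun w => d w ≤ 2)
        rw [Finset.card_univ] at this
        rw [hn, hB, ← this]
        push_cast
        ring
      rw [h2] at h1
      refine le_trans ?_ h1
      have h3 : c0 * n ≤ n - B := by nlinarith
      have h4 : c0 * n ≤ γ * n - B := by nlinarith
      calc c0 ^ 2 * n ^ 2 = (c0 * n) * (c0 * n) := by ring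
        _ ≤ _ := mul_le_mul h3 h4 (by positivity) (by nlinarith)
    · rw [not_le] at hBc
      have h1 : ∑ w ∈ univ.filter (fun w => d w = 4), (γ * n - A) ≤ M := by
        rw [hM]
        refine le_trans (Finset.sum_le_sum (g := fun w => ((Mw w).card : ℝ)) ?_)
          (Finset.sum_le_sum_of_subset_of_nonneg (Finset.subset_univ _) fun _ _ _ => by positivity)
        intro w hw
        rw [Finset.mem_filter] at hw
        exact hMw1 w 1 (by omega) (by omega)
      rw [Finset.sum_const, nsmul_eq_mul] at h1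
      refine le_trans ?_ h1
      have h3 : 4 * c0 * n ≤ X := by nlinarith
      have h4 : 1 / 5 * n ≤ γ * n - A := by nlinarith
      have h5 : c0 ≤ 2 / 5 := by linarith
      calc c0 ^ 2 * n ^ 2 ≤ (4 * c0 * n) * (1 / 5 * n) := by nlinarith [mul_pos hc (mul_pos hnpos hnpos)]
        _ ≤ _ := mul_le_mul h3 h4 (by positivity) (by positivity)
  -- pigeonhole
  by_contra hcon
  push Not at hcon
  have hup : M ≤ ∑ ij ∈ (univ : Finset (Fin 4)).offDiag,
      ((univ.filter (fun p : V × V => G.Adj p.1 p.2 ∧ (G.Adj (v ij.1) p.1 ∧ G.Adj (v ij.2) p.1) ∧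
        (G.Adj (v ij.1) p.2 ∧ G.Adj (v ij.2) p.2))).card : ℝ) := by
    have e : M = ((univ.filter (fun p : V × V => G.Adj p.1 p.2 ∧
        2 ≤ (univ.filter (fun i : Fin 4 => G.Adj (v i) p.1 ∧ G.Adj (v i) p.2)).card)).card : ℝ) := by
      rw [hM, Finset.card_filter]
      push_cast
      rw [Fintype.sum_prod_type]
      refine Finset.sum_congr rfl fun w _ => ?_
      rw [hMw]
      simp only
      rw [Finset.card_filter]
      push_cast
      rfl
    rw [e]
    have hsub : (univ.filter (fun p : V × V => G.Adj p.1 p.2 ∧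
        2 ≤ (univ.filter (fun i : Fin 4 => G.Adj (v i) p.1 ∧ G.Adj (v i) p.2)).card)) ⊆
        (univ : Finset (Fin 4)).offDiag.biUnion (fun ij =>
        univ.filter (fun p : V × V => G.Adj p.1 p.2 ∧ (G.Adj (v ij.1) p.1 ∧ G.Adj (v ij.2) p.1) ∧
        (G.Adj (v ij.1) p.2 ∧ G.Adj (v ij.2) p.2))) := by
      intro p hp
      rw [Finset.mem_filter] at hp
      obtain ⟨-, hadj, h2⟩ := hp
      obtain ⟨i, hi, j, hj, hij⟩ := Finset.one_lt_card.mp (Nat.lt_of_lt_of_le (by norm_num) h2)
      rw [Finset.mem_filter] at hi hj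
      rw [Finset.mem_biUnion]
      refine ⟨(i, j), ?_, ?_⟩
      · simp [hij]
      · rw [Finset.mem_filter]
        exact ⟨Finset.mem_univ _, hadj, ⟨hi.2.1, hj.2.1⟩, ⟨hi.2.2, hj.2.2⟩⟩
    calc _ ≤ ((((univ : Finset (Fin 4)).offDiag.biUnion (fun ij =>
        univ.filter (fun p : V × V => G.Adj p.1 p.2 ∧ (G.Adj (v ij.1) p.1 ∧ G.Adj (v ij.2) p.1) ∧
        (G.Adj (v ij.1) p.2 ∧ G.Adj (v ij.2) p.2)))).card : ℕ) : ℝ) := by
          exact_mod_cast Finset.card_le_card hsub
      _ ≤ _ := by exact_mod_cast Finset.card_biUnion_le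
  have hup2 : ∑ ij ∈ (univ : Finset (Fin 4)).offDiag,
      ((univ.filter (fun p : V × V => G.Adj p.1 p.2 ∧ (G.Adj (v ij.1) p.1 ∧ G.Adj (v ij.2) p.1) ∧
        (G.Adj (v ij.1) p.2 ∧ G.Adj (v ij.2) p.2))).card : ℝ) ≤
      ∑ _ij ∈ (univ : Finset (Fin 4)).offDiag, c0 ^ 2 / 16 * n ^ 2 := by
    refine Finset.sum_le_sum fun ij hij => ?_
    rw [Finset.mem_offDiag] at hij
    exact (hcon ij.1 ij.2 hij.2.2).le
  rw [Finset.sum_const, Finset.offDiag_card] at hup2
  simp only [Finset.card_univ, Fintype.card_fin, nsmul_eq_mul] at hup2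
  norm_num at hup2
  have : 0 < c0 ^ 2 * n ^ 2 := by positivity
  nlinarith

end Pool.H46.Removal
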