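import Pool.Agent.Helper46.Removal.Upper1

/-!
Counting homomorphisms and copies.
-/

namespace Pool.H46.Removal

open Finset

/-- Counting triples. -/
lemma many_triples {V : Type} [Finite V] (G : SimpleGraph V)
    (u v : V) (β δ : ℝ) (hδ : 0 ≤ δ)
    (hco : ∀ b c, δ * Nat.card V ≤ (Nat.card {a // G.Adj a b ∧ G.Adj a c} : ℝ))
    (hE : β * (Nat.card V : ℝ) ^ 2 ≤ (Nat.card {y : V × V // G.Adj y.1 y.2 ∧
      (G.Adj u y.1 ∧ G.Adj v y.1) ∧ (G.Adj u y.2 ∧ G.Adj v y.2)} : ℝ)) :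
    (β * δ) * (Nat.card V : ℝ) ^ 3 ≤ (Nat.card {x : V × (V × V) //
      (G.Adj x.1 x.2.1 ∧ G.Adj x.1 x.2.2) ∧ (G.Adj x.2.1 x.2.2 ∧
      (G.Adj u x.2.1 ∧ G.Adj v x.2.1) ∧ (G.Adj u x.2.2 ∧ G.Adj v x.2.2))} : ℝ) := by
  classical
  have := Fintype.ofFinite V
  set Q : V × V → Prop := fun y => G.Adj y.1 y.2 ∧
      (G.Adj u y.1 ∧ G.Adj v y.1) ∧ (G.Adj u y.2 ∧ G.Adj v y.2) with hQ
  set P : V → V × V → Prop := fun a y => G.Adj a y.1 ∧ G.Adj a y.2 with hP
  have e : (Nat.card {x : V × (V × V) // P x.1 x.2 ∧ Q x.2} : ℝ) =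
      ∑ y : V × V, (Nat.card {a : V // P a y ∧ Q y} : ℝ) := by
    rw [Nat.card_eq_fintype_card, Fintype.card_subtype, Finset.card_filter]
    push_cast
    rw [Fintype.sum_prod_type_right]
    refine Finset.sum_congr rfl fun y _ => ?_
    rw [Nat.card_eq_fintype_card, Fintype.card_subtype, Finset.card_filter]
    push_cast
    rfl
  have e2 : (Nat.card {x : V × (V × V) //
      (G.Adj x.1 x.2.1 ∧ G.Adj x.1 x.2.2) ∧ (G.Adj x.2.1 x.2.2 ∧
      (G.Adj u x.2.1 ∧ G.Adj v x.2.1) ∧ (G.Adj u x.2.2 ∧ G.Adj v x.2.2))} : ℝ) =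
      (Nat.card {x : V × (V × V) // P x.1 x.2 ∧ Q x.2} : ℝ) := rfl
  have e3 : (Nat.card {y : V × V // Q y} : ℝ) = ((univ.filter Q).card : ℝ) := by
    rw [Nat.card_eq_fintype_card, Fintype.card_subtype]
  rw [e2, e]
  set n : ℝ := (Nat.card V : ℝ) with hn
  calc (β * δ) * n ^ 3 = (β * n ^ 2) * (δ * n) := by ring
    _ ≤ (Nat.card {y : V × V // Q y} : ℝ) * (δ * n) :=
        mul_le_mul_of_nonneg_right hE (by positivity)
    _ = ∑ y ∈ univ.filter Q, (δ * n) := by rw [Finset.sum_const, nsmul_eq_mul, e3]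
    _ ≤ ∑ y ∈ univ.filter Q, (Nat.card {a : V // P a y ∧ Q y} : ℝ) := by
        refine Finset.sum_le_sum fun y hy => ?_
        rw [Finset.mem_filter] at hy
        refine (hco y.1 y.2).trans (le_of_eq ?_)
        congr 1
        exact Nat.card_congr (Equiv.subtypeEquivRight fun a => ⟨fun h => ⟨h, hy.2⟩, fun h => h.1⟩)
    _ ≤ _ := Finset.sum_le_sum_of_subset_of_nonneg (Finset.subset_univ _)
        fun _ _ _ => by positivity

/-- Number of vertices by colour. -/
lemma card_split {W : Type} [Finite W] (col : W → Fin 3) (p q : W) (hpq : p ≠ q)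
    (cp : col p = 0) (cq : col q = 0) :
    Nat.card W = Nat.card {w // col w = 2} + (Nat.card {w // col w = 1} +
      Nat.card {w // col w = 0 ∧ w ≠ p ∧ w ≠ q}) + 2 := by
  classical
  have := Fintype.ofFinite W
  simp only [Nat.card_eq_fintype_card]
  have e : Fintype.card W = ∑ w : W, ((if col w = 2 then 1 else 0) + ((if col w = 1 then 1 else 0)
      + (if (col w = 0 ∧ w ≠ p ∧ w ≠ q) then 1 else 0)) + ((if w = p then 1 else 0) +
        (if w = q then 1 else 0))) := by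
    rw [Fintype.card_eq_sum_ones]
    refine Finset.sum_congr rfl fun w _ => ?_
    by_cases h1 : w = p
    · subst h1
      simp [cp, hpq]
    by_cases h2 : w = q
    · subst h2
      simp [cq, Ne.symm hpq]
    have : col w = 0 ∨ col w = 1 ∨ col w = 2 := by
      generalize col w = x
      fin_cases x <;> simp
    rcases this with h | h | h <;> simp [h, h1, h2]
  rw [e]
  simp only [Finset.sum_add_distrib, ← Finset.card_filter, Fintype.card_subtype]
  simp only [add_right_inj, add_assoc]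
  have h1 : ∀ (z : W) (D : DecidablePred (fun i : W => i = z)),
      (@Finset.filter W (fun i => i = z) D univ).card = 1 := by
    intro z D
    rw [Finset.card_eq_one]
    exact ⟨z, by ext x; simp⟩
  rw [h1, h1]

/-- The map of `W` given by three families. -/
noncomputable def glue {W V : Type} (col : W → Fin 3) (p q : W) (u v : V)
    (x : ({w // col w = 2} → V) × (({w // col w = 1} → V) ×
          ({w // col w = 0 ∧ w ≠ p ∧ w ≠ q} → V))) (w : W) : V := by
  classical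
  exact if w = p then u else if w = q then v else
      if h1 : col w = 1 then x.2.1 ⟨w, h1⟩ else if h2 : col w = 2 then x.1 ⟨w, h2⟩ else
      if h3 : (col w = 0 ∧ w ≠ p ∧ w ≠ q) then x.2.2 ⟨w, h3⟩ else u

/-- Many homomorphisms with a prescribed edge. -/
lemma many_homs {W V : Type} [Finite W] [Finite V] (H : SimpleGraph W) (G : SimpleGraph V)
    (col : W → Fin 3) (p q : W) (hpq : p ≠ q) (cp : col p = 0) (cq : col q = 0)
    (hcol : ∀ a b, H.Adj a b → col a ≠ col b ∨ (a = p ∧ b = q) ∨ (a = q ∧ b = p))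
    (a0 b0 c0 : W) (ha0 : col a0 = 0 ∧ a0 ≠ p ∧ a0 ≠ q) (hb0 : col b0 = 1) (hc0 : col c0 = 2)
    (u v : V) (huv : G.Adj u v) (β δ : ℝ) (hβ : 0 ≤ β) (hδ : 0 ≤ δ)
    (hco : ∀ b c, δ * Nat.card V ≤ (Nat.card {a // G.Adj a b ∧ G.Adj a c} : ℝ))
    (hE : β * (Nat.card V : ℝ) ^ 2 ≤ (Nat.card {y : V × V // G.Adj y.1 y.2 ∧
      (G.Adj u y.1 ∧ G.Adj v y.1) ∧ (G.Adj u y.2 ∧ G.Adj v y.2)} : ℝ)) :
    (((β * δ) ^ Nat.card {w // col w = 0 ∧ w ≠ p ∧ w ≠ q}) ^ Nat.card {w // col w = 1}) ^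
      Nat.card {w // col w = 2} * (Nat.card V : ℝ) ^ (Nat.card W - 2) ≤
    (Nat.card {f : W → V // (f p = u ∧ f q = v) ∧
      ∀ a b, H.Adj a b → G.Adj (f a) (f b)} : ℝ) := by
  have : Nonempty {w // col w = 0 ∧ w ≠ p ∧ w ≠ q} := ⟨⟨a0, ha0⟩⟩
  have : Nonempty {w // col w = 1} := ⟨⟨b0, hb0⟩⟩
  have : Nonempty {w // col w = 2} := ⟨⟨c0, hc0⟩⟩
  have h5 := triple_jensen (A := {w // col w = 0 ∧ w ≠ p ∧ w ≠ q}) (B := {w // col w = 1})
    (C := {w // col w = 2}) (fun a b c => (G.Adj a b ∧ G.Adj a c) ∧ (G.Adj b c ∧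
      (G.Adj u b ∧ G.Adj v b) ∧ (G.Adj u c ∧ G.Adj v c))) (β * δ) (mul_nonneg hβ hδ)
    (many_triples G u v β δ hδ hco hE)
  have h6 : Nat.card {w // col w = 2} + (Nat.card {w // col w = 1} +
      Nat.card {w // col w = 0 ∧ w ≠ p ∧ w ≠ q}) = Nat.card W - 2 := by
    have := card_split col p q hpq cp cq
    omega
  rw [h6] at h5
  refine h5.trans ?_
  have Fp : ∀ x, glue col p q u v x p = u := fun x => by simp [glue]
  have Fq : ∀ x, glue col p q u v x q = v := fun x => by simp [glue, Ne.symm hpq]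
  have F1 : ∀ x w (h1 : col w = 1), glue col p q u v x w = x.2.1 ⟨w, h1⟩ := fun x w h1 => by
    have w1 : w ≠ p := by rintro rfl; rw [cp] at h1; exact absurd h1 (by decide)
    have w2 : w ≠ q := by rintro rfl; rw [cq] at h1; exact absurd h1 (by decide)
    simp [glue, w1, w2, h1]
  have F2 : ∀ x w (h2 : col w = 2), glue col p q u v x w = x.1 ⟨w, h2⟩ := fun x w h2 => by
    have w1 : w ≠ p := by rintro rfl; rw [cp] at h2; exact absurd h2 (by decide)
    have w2 : w ≠ q := by rintro rfl; rw [cq] at h2; exact absurd h2 (by decide)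
    have w3 : col w ≠ 1 := by rw [h2]; decide
    simp [glue, w1, w2, h2]
  have F0 : ∀ x w (h3 : col w = 0 ∧ w ≠ p ∧ w ≠ q), glue col p q u v x w = x.2.2 ⟨w, h3⟩ :=
    fun x w h3 => by
    have w3 : col w ≠ 1 := by rw [h3.1]; decide
    have w4 : col w ≠ 2 := by rw [h3.1]; decide
    simp [glue, h3]
  have hadj : ∀ x : ({w // col w = 2} → V) × (({w // col w = 1} → V) ×
          ({w // col w = 0 ∧ w ≠ p ∧ w ≠ q} → V)),
      (∀ k j i, (G.Adj (x.2.2 i) (x.2.1 j) ∧ G.Adj (x.2.2 i) (x.1 k)) ∧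
        (G.Adj (x.2.1 j) (x.1 k) ∧ (G.Adj u (x.2.1 j) ∧ G.Adj v (x.2.1 j)) ∧
        (G.Adj u (x.1 k) ∧ G.Adj v (x.1 k)))) →
      ∀ a b, H.Adj a b → G.Adj (glue col p q u v x a) (glue col p q u v x b) := by
    intro x hx
    have fAB : ∀ i j, G.Adj (x.2.2 i) (x.2.1 j) := fun i j => (hx ⟨c0, hc0⟩ j i).1.1
    have fAC : ∀ i k, G.Adj (x.2.2 i) (x.1 k) := fun i k => (hx k ⟨b0, hb0⟩ i).1.2
    have fBC : ∀ j k, G.Adj (x.2.1 j) (x.1 k) := fun j k => (hx k j ⟨a0, ha0⟩).2.1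
    have fuB : ∀ j, G.Adj u (x.2.1 j) := fun j => (hx ⟨c0, hc0⟩ j ⟨a0, ha0⟩).2.2.1.1
    have fvB : ∀ j, G.Adj v (x.2.1 j) := fun j => (hx ⟨c0, hc0⟩ j ⟨a0, ha0⟩).2.2.1.2
    have fuC : ∀ k, G.Adj u (x.1 k) := fun k => (hx k ⟨b0, hb0⟩ ⟨a0, ha0⟩).2.2.2.1
    have fvC : ∀ k, G.Adj v (x.1 k) := fun k => (hx k ⟨b0, hb0⟩ ⟨a0, ha0⟩).2.2.2.2
    have htype : ∀ w, w = p ∨ w = q ∨ (col w = 0 ∧ w ≠ p ∧ w ≠ q) ∨ col w = 1 ∨ col w = 2 := by
      intro w
      by_cases h1 : w = p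
      · exact Or.inl h1
      by_cases h2 : w = q
      · exact Or.inr (Or.inl h2)
      have : col w = 0 ∨ col w = 1 ∨ col w = 2 := by
        generalize col w = y
        fin_cases y <;> simp
      rcases this with h | h | h
      · exact Or.inr (Or.inr (Or.inl ⟨h, h1, h2⟩))
      · exact Or.inr (Or.inr (Or.inr (Or.inl h)))
      · exact Or.inr (Or.inr (Or.inr (Or.inr h)))
    intro a b hab
    have hne : a ≠ b := H.ne_of_adj hab
    rcases hcol a b hab with hc | ⟨ha, hb⟩ | ⟨ha, hb⟩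
    · rcases htype a with ha | ha | h | h | h <;> rcases htype b with hb | hb | h' | h' | h'
      · exact absurd (ha.trans hb.symm) hne
      · rw [ha, hb] at hc; exact absurd (cp.trans cq.symm) hc
      · rw [ha] at hc; exact absurd (cp.trans h'.1.symm) hc
      · rw [ha, Fp, F1 x b h']; exact fuB _
      · rw [ha, Fp, F2 x b h']; exact fuC _
      · rw [ha, hb] at hc; exact absurd (cq.trans cp.symm) hc
      · exact absurd (ha.trans hb.symm) hne
      · rw [ha] at hc; exact absurd (cq.trans h'.1.symm) hc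
      · rw [ha, Fq, F1 x b h']; exact fvB _
      · rw [ha, Fq, F2 x b h']; exact fvC _
      · rw [hb] at hc; exact absurd (h.1.trans cp.symm) hc
      · rw [hb] at hc; exact absurd (h.1.trans cq.symm) hc
      · exact absurd (h.1.trans h'.1.symm) hc
      · rw [F0 x a h, F1 x b h']; exact fAB _ _
      · rw [F0 x a h, F2 x b h']; exact fAC _ _
      · rw [hb, Fp, F1 x a h]; exact (fuB _).symm
      · rw [hb, Fq, F1 x a h]; exact (fvB _).symm
      · rw [F0 x b h', F1 x a h]; exact (fAB _ _).symm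
      · exact absurd (h.trans h'.symm) hc
      · rw [F1 x a h, F2 x b h']; exact fBC _ _
      · rw [hb, Fp, F2 x a h]; exact (fuC _).symm
      · rw [hb, Fq, F2 x a h]; exact (fvC _).symm
      · rw [F0 x b h', F2 x a h]; exact (fAC _ _).symm
      · rw [F2 x a h, F1 x b h']; exact (fBC _ _).symm
      · exact absurd (h.trans h'.symm) hc
    · rw [ha, hb, Fp, Fq]; exact huv
    · rw [ha, hb, Fp, Fq]; exact huv.symm
  have hinj := Nat.card_le_card_of_injective
    (fun x : {x : ({w // col w = 2} → V) × (({w // col w = 1} → V) ×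
          ({w // col w = 0 ∧ w ≠ p ∧ w ≠ q} → V)) //
      ∀ k j i, (G.Adj (x.2.2 i) (x.2.1 j) ∧ G.Adj (x.2.2 i) (x.1 k)) ∧
        (G.Adj (x.2.1 j) (x.1 k) ∧ (G.Adj u (x.2.1 j) ∧ G.Adj v (x.2.1 j)) ∧
        (G.Adj u (x.1 k) ∧ G.Adj v (x.1 k)))} =>
      (⟨glue col p q u v x.1, ⟨Fp _, Fq _⟩, hadj x.1 x.2⟩ :
        {f : W → V // (f p = u ∧ f q = v) ∧ ∀ a b, H.Adj a b → G.Adj (f a) (f b)})) (by
    intro x x' hxx
    have hxx' : ∀ w, glue col p q u v x.1 w = glue col p q u v x'.1 w :=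
      fun w => congrFun (congrArg Subtype.val hxx) w
    apply Subtype.ext
    refine Prod.ext ?_ (Prod.ext ?_ ?_)
    · funext ⟨w, hw⟩
      rw [← F2 x.1 w hw, ← F2 x'.1 w hw]; exact hxx' w
    · funext ⟨w, hw⟩
      rw [← F1 x.1 w hw, ← F1 x'.1 w hw]; exact hxx' w
    · funext ⟨w, hw⟩
      rw [← F0 x.1 w hw, ← F0 x'.1 w hw]; exact hxx' w)
  exact_mod_cast hinj

open scoped Classical in
lemma one_pair {W V : Type} [Fintype W] [Fintype V] (p q w w' : W) (hpq : p ≠ q) (hw : w ≠ w')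
    (h1 : w' ≠ p) (h2 : w' ≠ q) (u v : V) :
    (univ.filter (fun f : W → V => (f p = u ∧ f q = v) ∧ f w = f w')).card ≤
      Fintype.card V ^ (Fintype.card W - 3) := by
  have hcard : Fintype.card {x : W // x ≠ p ∧ x ≠ q ∧ x ≠ w'} = Fintype.card W - 3 := by
    rw [Fintype.card_subtype]
    have e : (univ.filter (fun x : W => x ≠ p ∧ x ≠ q ∧ x ≠ w')) = univ \ {p, q, w'} := by
      ext x; simp
    rw [e, Finset.card_sdiff_of_subset (Finset.subset_univ _), Finset.card_univ]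
    rw [Finset.card_insert_of_notMem (by simp [hpq, h1.symm]),
      Finset.card_insert_of_notMem (by simp [h2.symm]), Finset.card_singleton]
  rw [← hcard, ← Fintype.card_fun, ← Finset.card_univ]
  refine Finset.card_le_card_of_injOn (fun f z => f z.1) (fun _ _ => by simp) ?_
  intro f hf g hg hfg
  rw [Finset.mem_coe, Finset.mem_filter] at hf hg
  have hx : ∀ x, x ≠ p → x ≠ q → x ≠ w' → f x = g x := fun x a b c => congrFun hfg ⟨x, a, b, c⟩
  have hp : f p = g p := by rw [hf.2.1.1, hg.2.1.1]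
  have hq : f q = g q := by rw [hf.2.1.2, hg.2.1.2]
  have hww : f w = g w := by
    by_cases a : w = p
    · rw [a, hp]
    by_cases b : w = q
    · rw [b, hq]
    exact hx w a b hw
  funext x
  by_cases a : x = p
  · rw [a, hp]
  by_cases b : x = q
  · rw [b, hq]
  by_cases c : x = w'
  · rw [c, ← hf.2.2, ← hg.2.2, hww]
  exact hx x a b c

open scoped Classical in
lemma noninj {W V : Type} [Fintype W] [Fintype V] (p q : W) (hpq : p ≠ q)
    (u v : V) (huv : u ≠ v) :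
    (univ.filter (fun f : W → V => (f p = u ∧ f q = v) ∧ ¬ Function.Injective f)).card ≤
      Fintype.card W ^ 2 * Fintype.card V ^ (Fintype.card W - 3) := by
  have hsub : univ.filter (fun f : W → V => (f p = u ∧ f q = v) ∧ ¬ Function.Injective f) ⊆
      ((univ : Finset (W × W)).filter (fun z => z.1 ≠ z.2 ∧ z.2 ≠ p ∧ z.2 ≠ q)).biUnion
      (fun z => univ.filter (fun f : W → V => (f p = u ∧ f q = v) ∧ f z.1 = f z.2)) := by
    intro f hf
    rw [Finset.mem_filter] at hf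
    obtain ⟨-, ⟨fp, fq⟩, hni⟩ := hf
    rw [Function.Injective] at hni
    push Not at hni
    obtain ⟨x, y, hxy, hne⟩ := hni
    rw [Finset.mem_biUnion]
    by_cases hy : y ≠ p ∧ y ≠ q
    · exact ⟨(x, y), by simp [hne, hy.1, hy.2], by simp [fp, fq, hxy]⟩
    by_cases hx : x ≠ p ∧ x ≠ q
    · exact ⟨(y, x), by simp [Ne.symm hne, hx.1, hx.2], by simp [fp, fq, hxy]⟩
    exfalso
    have hy' : y = p ∨ y = q := by tauto
    have hx' : x = p ∨ x = q := by tauto
    rcases hx' with rfl | rfl <;> rcases hy' with rfl | rfl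
    · exact hne rfl
    · exact huv (fp.symm.trans (hxy.trans fq))
    · exact huv (fp.symm.trans (hxy.symm.trans fq))
    · exact hne rfl
  refine (Finset.card_le_card hsub).trans (Finset.card_biUnion_le.trans ?_)
  calc _ ≤ ∑ z ∈ (univ : Finset (W × W)).filter (fun z => z.1 ≠ z.2 ∧ z.2 ≠ p ∧ z.2 ≠ q),
        Fintype.card V ^ (Fintype.card W - 3) := by
        refine Finset.sum_le_sum fun z hz => ?_
        rw [Finset.mem_filter] at hz
        exact one_pair p q z.1 z.2 hpq hz.2.1 hz.2.2.1 hz.2.2.2 u v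
    _ ≤ _ := by
        rw [Finset.sum_const, smul_eq_mul]
        refine Nat.mul_le_mul_right _ ?_
        refine (Finset.card_le_univ _).trans ?_
        rw [Fintype.card_prod, sq]

end Pool.H46.Removal
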