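import Pool.Agent.Helper46.Removal.Upper2

/-!
Graphs that contain `K₄` and are one edge away from being 3-colourable: linear removal above 3/5.
-/

namespace Pool.H46.Removal

open Finset

open scoped Classical in
lemma ncard_nbr {V : Type} [Fintype V] (G : SimpleGraph V) (v : V) :
    (G.neighborSet v).ncard = (univ.filter (fun w => G.Adj v w)).card := by
  rw [← Set.ncard_coe_finset]
  congr 1
  ext w
  simp

open scoped Classical in
lemma ncard_filter {V : Type} [Fintype V] (P : V → Prop) :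
    {x | P x}.ncard = (univ.filter P).card := by
  rw [← Set.ncard_coe_finset]
  congr 1
  ext w
  simp

open scoped Classical in
lemma natcard_filter {V : Type} [Fintype V] (P : V → Prop) :
    Nat.card {x // P x} = (univ.filter P).card := by
  rw [Nat.card_eq_fintype_card, Fintype.card_subtype]

open scoped Classical in
lemma codegree {V : Type} [Fintype V] (G : SimpleGraph V) (γ : ℝ) (hγ : 3 / 5 < γ)
    (hdeg : ∀ v, γ * Fintype.card V ≤ ((univ.filter (fun w => G.Adj v w)).card : ℝ)) (b c : V) :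
    1 / 5 * (Nat.card V : ℝ) ≤ (Nat.card {a // G.Adj a b ∧ G.Adj a c} : ℝ) := by
  rw [natcard_filter, Nat.card_eq_fintype_card]
  have h1 := Finset.card_union_add_card_inter
    (univ.filter (fun w => G.Adj b w)) (univ.filter (fun w => G.Adj c w))
  have h2 := Finset.card_le_univ
    ((univ.filter (fun w => G.Adj b w)) ∪ (univ.filter (fun w => G.Adj c w)))
  have e : (univ.filter (fun w => G.Adj b w)) ∩ (univ.filter (fun w => G.Adj c w)) =
      univ.filter (fun a => G.Adj a b ∧ G.Adj a c) := by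
    ext a
    simp [G.adj_comm]
  rw [e] at h1
  have hb := hdeg b
  have hc := hdeg c
  have h3 : ((univ.filter (fun w => G.Adj b w)).card : ℝ) +
      ((univ.filter (fun w => G.Adj c w)).card : ℝ) ≤
      (Fintype.card V : ℝ) + ((univ.filter (fun a => G.Adj a b ∧ G.Adj a c)).card : ℝ) := by
    exact_mod_cast (h1 ▸ Nat.add_le_add_right h2 _)
  have hn : (0 : ℝ) ≤ Fintype.card V := by positivity
  have h6 := mul_le_mul_of_nonneg_right hγ.le hn
  have h7 : 1 / 5 * (Fintype.card V : ℝ) ≤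
      ((univ.filter (fun a => G.Adj a b ∧ G.Adj a c)).card : ℝ) := by linarith
  convert h7

open scoped Classical in
/-- Many copies with a prescribed edge. -/
lemma many_copies {W V : Type} [Fintype W] [Fintype V] (H : SimpleGraph W) (G : SimpleGraph V)
    (col : W → Fin 3) (p q : W) (hpq : p ≠ q) (cp : col p = 0) (cq : col q = 0)
    (hcol : ∀ a b, H.Adj a b → col a ≠ col b ∨ (a = p ∧ b = q) ∨ (a = q ∧ b = p))
    (a0 b0 c0 : W) (ha0 : col a0 = 0 ∧ a0 ≠ p ∧ a0 ≠ q) (hb0 : col b0 = 1) (hc0 : col c0 = 2)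
    (u v : V) (huv : G.Adj u v) (β : ℝ) (hβ : 0 < β) (γ : ℝ) (hγ : 3 / 5 < γ)
    (hdeg : ∀ v, γ * Fintype.card V ≤ ((univ.filter (fun w => G.Adj v w)).card : ℝ))
    (hE : β * (Fintype.card V : ℝ) ^ 2 ≤ ((univ.filter (fun y : V × V => G.Adj y.1 y.2 ∧
      (G.Adj u y.1 ∧ G.Adj v y.1) ∧ (G.Adj u y.2 ∧ G.Adj v y.2))).card : ℝ))
    (κ : ℝ) (hκ : κ = (((β * (1 / 5)) ^ Nat.card {w // col w = 0 ∧ w ≠ p ∧ w ≠ q}) ^
      Nat.card {w // col w = 1}) ^ Nat.card {w // col w = 2})
    (hn : 2 * (Fintype.card W : ℝ) ^ 2 / κ < Fintype.card V) :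
    κ / 2 * (Fintype.card V : ℝ) ^ (Fintype.card W - 2) ≤
    ((univ.filter (fun f : W → V => IsCopy H G f ∧ (f p = u ∧ f q = v))).card : ℝ) := by
  have hκ0 : 0 < κ := by rw [hκ]; positivity
  have h1 := many_homs H G col p q hpq cp cq hcol a0 b0 c0 ha0 hb0 hc0 u v huv β (1 / 5)
    hβ.le (by norm_num) (codegree G γ hγ hdeg) (by
      rw [natcard_filter, Nat.card_eq_fintype_card]; convert hE)
  rw [← hκ, natcard_filter, Nat.card_eq_fintype_card, Nat.card_eq_fintype_card] at h1
  have h1' : κ * (Fintype.card V : ℝ) ^ (Fintype.card W - 2) ≤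
      ((univ.filter (fun f : W → V => (f p = u ∧ f q = v) ∧
      ∀ a b, H.Adj a b → G.Adj (f a) (f b))).card : ℝ) := by convert h1
  have h2 := noninj (W := W) p q hpq u v huv.ne
  have h3 : univ.filter (fun f : W → V => (f p = u ∧ f q = v) ∧
      ∀ a b, H.Adj a b → G.Adj (f a) (f b)) ⊆
      univ.filter (fun f : W → V => IsCopy H G f ∧ (f p = u ∧ f q = v)) ∪
      univ.filter (fun f : W → V => (f p = u ∧ f q = v) ∧ ¬ Function.Injective f) := by
    intro f hf
    rw [Finset.mem_filter] at hf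
    rw [Finset.mem_union, Finset.mem_filter, Finset.mem_filter]
    by_cases hi : Function.Injective f
    · exact Or.inl ⟨Finset.mem_univ _, ⟨hi, hf.2.2⟩, hf.2.1⟩
    · exact Or.inr ⟨Finset.mem_univ _, hf.2.1, hi⟩
  have h4 := (Finset.card_le_card h3).trans (Finset.card_union_le _ _)
  have h5 : κ * (Fintype.card V : ℝ) ^ (Fintype.card W - 2) ≤
      ((univ.filter (fun f : W → V => IsCopy H G f ∧ (f p = u ∧ f q = v))).card : ℝ) +
      (Fintype.card W : ℝ) ^ 2 * (Fintype.card V : ℝ) ^ (Fintype.card W - 3) := by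
    refine h1'.trans ?_
    have h6 := h4.trans (Nat.add_le_add_left h2 _)
    exact_mod_cast h6
  have hW : 3 ≤ Fintype.card W := by
    have := Finset.card_le_univ ({p, q, a0} : Finset W)
    rwa [Finset.card_insert_of_notMem (by simp [hpq, ha0.2.1.symm]),
      Finset.card_insert_of_notMem (by simp [ha0.2.2.symm]), Finset.card_singleton] at this
  obtain ⟨m, hm⟩ : ∃ m, Fintype.card W = m + 3 := ⟨Fintype.card W - 3, by omega⟩
  have e2 : Fintype.card W - 2 = m + 1 := by omega
  have e3 : Fintype.card W - 3 = m := by omega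
  rw [e2] at h5 ⊢
  rw [e3] at h5
  have hn' : (Fintype.card W : ℝ) ^ 2 ≤ κ / 2 * Fintype.card V := by
    rw [div_lt_iff₀ hκ0] at hn
    linarith
  have hp : (0 : ℝ) ≤ (Fintype.card V : ℝ) ^ m := by positivity
  have h7 := mul_le_mul_of_nonneg_right hn' hp
  have e4 : (Fintype.card V : ℝ) ^ (m + 1) = (Fintype.card V : ℝ) * (Fintype.card V : ℝ) ^ m := by
    ring
  rw [e4] at h5 ⊢
  nlinarith

open scoped Classical in
theorem linearAt_of_k4 {W : Type} [Fintype W] (H : SimpleGraph W) (col : W → Fin 3)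
    (p q k1 k2 a0 : W) (hpq : H.Adj p q) (h1 : H.Adj p k1) (h2 : H.Adj p k2) (h3 : H.Adj q k1)
    (h4 : H.Adj q k2) (h5 : H.Adj k1 k2) (cp : col p = 0) (cq : col q = 0) (c1 : col k1 = 1)
    (c2 : col k2 = 2) (ha0 : col a0 = 0 ∧ a0 ≠ p ∧ a0 ≠ q)
    (hcol : ∀ a b, H.Adj a b → col a ≠ col b ∨ (a = p ∧ b = q) ∨ (a = q ∧ b = p))
    (γ : ℝ) (hγ : 3 / 5 < γ) (hγ1 : γ ≤ 1) :
    ∃ μ : ℝ, 0 < μ ∧ ∀ ε : ℝ, 0 < ε → HasRemoval H ε γ (μ * ε) := by
  set β : ℝ := (γ - 3 / 5) ^ 2 / 16 with hβ
  have hβ0 : 0 < β := by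
    have : 0 < γ - 3 / 5 := by linarith
    positivity
  set κ : ℝ := (((β * (1 / 5)) ^ Nat.card {w // col w = 0 ∧ w ≠ p ∧ w ≠ q}) ^
      Nat.card {w // col w = 1}) ^ Nat.card {w // col w = 2} with hκ
  have hκ0 : 0 < κ := by positivity
  have hW : 3 ≤ Fintype.card W := by
    have := Finset.card_le_univ ({p, q, a0} : Finset W)
    rwa [Finset.card_insert_of_notMem (by simp [hpq.ne, ha0.2.1.symm]),
      Finset.card_insert_of_notMem (by simp [ha0.2.2.symm]), Finset.card_singleton] at this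
  set n0 : ℝ := 2 * (Fintype.card W : ℝ) ^ 2 / κ with hn0
  have hn00 : 0 < n0 := by
    have : (0 : ℝ) < Fintype.card W := by exact_mod_cast (by omega : 0 < Fintype.card W)
    positivity
  set μ : ℝ := min (κ / 2) (1 / n0 ^ (Fintype.card W - 2)) with hμ
  have hμ0 : 0 < μ := lt_min (by positivity) (by positivity)
  refine ⟨μ, hμ0, ?_⟩
  intro ε hε V _ G hdeg0 ⟨S, hS, hdis, hcard⟩
  have hdeg : ∀ v, γ * Fintype.card V ≤ ((univ.filter (fun w => G.Adj v w)).card : ℝ) := by
    intro v
    have := hdeg0 v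
    rw [ncard_nbr] at this
    exact this
  rw [ncard_filter]
  set n : ℝ := (Fintype.card V : ℝ) with hn
  have hnn : 0 ≤ n := by positivity
  -- reduction
  suffices hmain : μ * S.card * n ^ (Fintype.card W - 2) ≤
      ((univ.filter (fun f : W → V => IsCopy H G f)).card : ℝ) by
    refine le_trans ?_ hmain
    have e : n ^ Fintype.card W = n ^ 2 * n ^ (Fintype.card W - 2) := by
      rw [← pow_add]; congr 1; omega
    rw [e]
    have hp : 0 ≤ n ^ (Fintype.card W - 2) := by positivity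
    calc μ * ε * (n ^ 2 * n ^ (Fintype.card W - 2)) =
        μ * (ε * n ^ 2) * n ^ (Fintype.card W - 2) := by ring
      _ ≤ _ := by
        apply mul_le_mul_of_nonneg_right _ hp
        exact mul_le_mul_of_nonneg_left hcard hμ0.le
  by_cases hsmall : n ≤ n0
  · have hsub : S ⊆ univ.filter (fun f : W → V => IsCopy H G f) := by
      intro f hf
      rw [Finset.mem_filter]
      exact ⟨Finset.mem_univ _, hS f hf⟩
    have h6 : (S.card : ℝ) ≤ ((univ.filter (fun f : W → V => IsCopy H G f)).card : ℝ) := by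
      exact_mod_cast Finset.card_le_card hsub
    refine le_trans ?_ h6
    have h7 : μ * n ^ (Fintype.card W - 2) ≤ 1 := by
      calc μ * n ^ (Fintype.card W - 2) ≤ 1 / n0 ^ (Fintype.card W - 2) *
          n0 ^ (Fintype.card W - 2) := by
            apply mul_le_mul (min_le_right _ _) (pow_le_pow_left₀ hnn hsmall _) (by positivity)
              (by positivity)
        _ = 1 := by field_simp
    calc μ * S.card * n ^ (Fintype.card W - 2) = (μ * n ^ (Fintype.card W - 2)) * S.card := by ring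
      _ ≤ 1 * S.card := mul_le_mul_of_nonneg_right h7 (by positivity)
      _ = S.card := one_mul _
  · rw [not_le] at hsmall
    -- choose an edge for each copy
    set K : Fin 4 → W := ![p, q, k1, k2] with hK
    have hKadj : ∀ i j : Fin 4, i ≠ j → H.Adj (K i) (K j) := by
      intro i j hij
      fin_cases i <;> fin_cases j <;>
        first
        | exact absurd rfl hij
        | exact hpq
        | exact hpq.symm
        | exact h1
        | exact h1.symm
        | exact h2
        | exact h2.symm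
        | exact h3
        | exact h3.symm
        | exact h4
        | exact h4.symm
        | exact h5
        | exact h5.symm
    have hex : ∀ f : W → V, ∃ ij : Fin 4 × Fin 4, ij.1 ≠ ij.2 ∧ β * n ^ 2 ≤
        ((univ.filter (fun y : V × V => G.Adj y.1 y.2 ∧
        (G.Adj (f (K ij.1)) y.1 ∧ G.Adj (f (K ij.2)) y.1) ∧
        (G.Adj (f (K ij.1)) y.2 ∧ G.Adj (f (K ij.2)) y.2))).card : ℝ) := by
      intro f
      obtain ⟨i, j, hij, h⟩ := four_pair G γ (γ - 3 / 5) (by linarith) (by ring) hγ1 hdeg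
        (fun i => f (K i))
      exact ⟨(i, j), hij, h⟩
    choose E hE1 hE2 using hex
    have hD : ∀ f ∈ S, κ / 2 * n ^ (Fintype.card W - 2) ≤
        ((univ.filter (fun g : W → V => IsCopy H G g ∧
          (g p = f (K (E f).1) ∧ g q = f (K (E f).2)))).card : ℝ) := by
      intro f hf
      exact many_copies H G col p q hpq.ne cp cq hcol a0 k1 k2 ha0 c1 c2 _ _
        ((hS f hf).2 _ _ (hKadj _ _ (hE1 f))) β hβ0 γ hγ hdeg (hE2 f) κ hκ hsmall
    have hpd : (S : Set (W → V)).PairwiseDisjoint (fun f =>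
        univ.filter (fun g : W → V => IsCopy H G g ∧
          (g p = f (K (E f).1) ∧ g q = f (K (E f).2)))) := by
      intro f hf f' hf' hne
      rw [Function.onFun, Finset.disjoint_left]
      intro g hg hg'
      rw [Finset.mem_filter] at hg hg'
      refine hdis f hf f' hf' hne _ _ _ _ (hKadj _ _ (hE1 f)) (hKadj _ _ (hE1 f')) ?_
      rw [← hg.2.2.1, ← hg.2.2.2, ← hg'.2.2.1, ← hg'.2.2.2]
    have hU : (S.biUnion (fun f => univ.filter (fun g : W → V => IsCopy H G g ∧
          (g p = f (K (E f).1) ∧ g q = f (K (E f).2))))) ⊆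
        univ.filter (fun f : W → V => IsCopy H G f) := by
      intro g hg
      rw [Finset.mem_biUnion] at hg
      obtain ⟨f, _, hg⟩ := hg
      rw [Finset.mem_filter] at hg ⊢
      exact ⟨hg.1, hg.2.1⟩
    have h8 := Finset.card_le_card hU
    rw [Finset.card_biUnion hpd] at h8
    calc μ * S.card * n ^ (Fintype.card W - 2) ≤
        (κ / 2) * S.card * n ^ (Fintype.card W - 2) := by
          apply mul_le_mul_of_nonneg_right _ (by positivity)
          exact mul_le_mul_of_nonneg_right (min_le_left _ _) (by positivity)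
      _ = ∑ f ∈ S, κ / 2 * n ^ (Fintype.card W - 2) := by
          rw [Finset.sum_const, nsmul_eq_mul]; ring
      _ ≤ ∑ f ∈ S, ((univ.filter (fun g : W → V => IsCopy H G g ∧
          (g p = f (K (E f).1) ∧ g q = f (K (E f).2)))).card : ℝ) := Finset.sum_le_sum hD
      _ ≤ _ := by exact_mod_cast h8

lemma HasRemoval.mono {W : Type} [Fintype W] {H : SimpleGraph W} {ε γ δ δ' : ℝ}
    (h : HasRemoval H ε γ δ) (hδ : δ' ≤ δ) : HasRemoval H ε γ δ' := by
  intro V _ G h1 h2
  refine le_trans ?_ (h V G h1 h2)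
  exact mul_le_mul_of_nonneg_right hδ (by positivity)

/-- The upper bound for the threshold. -/
theorem linThreshold_le {W : Type} [Fintype W] (H : SimpleGraph W)
    (h : ∀ γ : ℝ, 3 / 5 < γ → γ ≤ 1 →
      ∃ μ : ℝ, 0 < μ ∧ ∀ ε : ℝ, 0 < ε → HasRemoval H ε γ (μ * ε)) : linThreshold H ≤ 3 / 5 := by
  have key : ∀ γ : ℝ, 3 / 5 < γ → γ ≤ 1 → linThreshold H ≤ γ := by
    intro γ hγ hγ1
    refine csInf_le ⟨0, fun y hy => hy.1⟩ ⟨by linarith, hγ1, ?_⟩
    obtain ⟨μ, hμ, hr⟩ := h γ hγ hγ1
    refine ⟨min μ 1, lt_min hμ one_pos, fun ε hε hε1 => ?_⟩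
    refine le_csSup ⟨1, fun y hy => hy.2.1⟩ ⟨by positivity, ?_, ?_⟩
    · calc min μ 1 * ε ≤ 1 * 1 := mul_le_mul (min_le_right _ _) hε1 hε.le zero_le_one
        _ = 1 := one_mul 1
    · exact (hr ε hε).mono (mul_le_mul_of_nonneg_right (min_le_left _ _) hε.le)
  refine le_of_forall_gt_imp_ge_of_dense fun x hx => ?_
  by_cases hx1 : x ≤ 1
  · exact key x hx hx1
  · refine le_trans (key 1 (by norm_num) le_rfl) ?_
    linarith

end Pool.H46.Removal
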